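import Pool.Agent.H458.AR.Fld
import Pool.Graph.R_pool_sql_team_seeded_63374d34.N75.PM.Loc1

/-!
# Project AR (helper458), part EVP: even valuations (helper404)
-/

set_option autoImplicit false

open IsDedekindDomain NumberField Polynomial WithZero
open scoped Classical

namespace Pool.Agent.H404.AR458

open Pool.Agent.N922.PQ
open Pool.Agent.N874.PP (Ev)
open Pool.Agent.N874.PM (PLoc Lies)
open Pool.Agent.H458.AR

/-- the prime of `ℤ` given by `p` -/
noncomputable def W (p : ℕ) (hp : p.Prime) : HeightOneSpectrum ℤ :=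
  (Rat.HeightOneSpectrum.primesEquiv (R := ℤ)).symm ⟨p, hp⟩

theorem W_ideal (p : ℕ) (hp : p.Prime) : (W p hp).asIdeal = Ideal.span {(p : ℤ)} := by
  have h := Rat.HeightOneSpectrum.span_natGenerator (W p hp)
  have h2 : Rat.HeightOneSpectrum.natGenerator (W p hp) = p := by
    have := (Rat.HeightOneSpectrum.primesEquiv (R := ℤ)).apply_symm_apply ⟨p, hp⟩
    exact congrArg Subtype.val this
  rw [h2] at h
  have h3 : ∀ x : ℤ, Rat.IsIntegralClosure.intEquiv ℤ x = x := by
    intro x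
    exact (eq_intCast (Rat.IsIntegralClosure.intEquiv ℤ) x).trans (Int.cast_id)
  rw [h]
  ext x
  constructor
  · intro hx
    have := Ideal.mem_map_of_mem (Rat.IsIntegralClosure.intEquiv ℤ) hx
    rwa [h3] at this
  · intro hx
    rw [Ideal.mem_map_iff_of_surjective _ (Rat.IsIntegralClosure.intEquiv ℤ).surjective] at hx
    obtain ⟨y, hy, rfl⟩ := hx
    have : (Rat.IsIntegralClosure.intEquiv ℤ) y = y := h3 y
    erw [this]
    exact hy

theorem W_mem (p : ℕ) (hp : p.Prime) (x : ℤ) : x ∈ (W p hp).asIdeal ↔ (p : ℤ) ∣ x := by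
  rw [W_ideal, Ideal.mem_span_singleton]

theorem W_val (p : ℕ) (hp : p.Prime) (x : ℤ) :
    (W p hp).valuation ℚ (x : ℚ) = (W p hp).intValuation x :=
  (W p hp).valuation_of_algebraMap (K := ℚ) x

theorem W_one (p : ℕ) (hp : p.Prime) {x : ℤ} (hx : ¬ (p : ℤ) ∣ x) :
    (W p hp).valuation ℚ (x : ℚ) = 1 := by
  rw [W_val, HeightOneSpectrum.intValuation_eq_one_iff_mem_primeCompl]
  intro hm
  exact hx ((W_mem p hp x).1 hm)

theorem W_le (p : ℕ) (hp : p.Prime) (x : ℤ) : (W p hp).valuation ℚ (x : ℚ) ≤ 1 :=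
  (W p hp).valuation_le_one (K := ℚ) x

theorem W_exp (p : ℕ) (hp : p.Prime) {x : ℤ} (hx : ¬ (p : ℤ) ^ 2 ∣ x) :
    exp (-1 : ℤ) ≤ (W p hp).valuation ℚ (x : ℚ) := by
  rw [W_val]
  by_contra hlt
  push Not at hlt
  have hx0 : x ≠ 0 := by
    rintro rfl
    exact hx (dvd_zero _)
  have h0 : (W p hp).intValuation x ≠ 0 := (W p hp).intValuation_ne_zero x hx0
  obtain ⟨n, hn⟩ : ∃ n : ℤ, (W p hp).intValuation x = exp n := ⟨log _, (exp_log h0).symm⟩
  rw [hn, exp_lt_exp] at hlt
  have h2 : (W p hp).intValuation x ≤ exp (-((2 : ℕ) : ℤ)) := by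
    rw [hn, exp_le_exp]
    push_cast
    omega
  rw [HeightOneSpectrum.intValuation_le_pow_iff_mem, W_ideal, Ideal.span_singleton_pow,
    Ideal.mem_span_singleton] at h2
  exact hx h2

section

variable {L O : Type} [Field L] [NumberField L] [CommRing O] [IsDedekindDomain O]
  [Algebra O L] [IsFractionRing O L]

theorem lies (p : ℕ) (hp : p.Prime) (𝔓 : HeightOneSpectrum O) (hov : Ov (p : ℤ) 𝔓) :
    Lies (M := ℚ) (Ω := L) (W p hp) 𝔓 := by
  have hint : ∀ z : ℤ, 𝔓.valuation L (z : L) ≤ 1 := by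
    intro z
    rw [← map_intCast (algebraMap O L) z]
    exact 𝔓.valuation_le_one (K := L) (z : O)
  have hp' : 𝔓.valuation L ((p : ℤ) : L) < 1 := by
    rw [← map_intCast (algebraMap O L) (p : ℤ)]
    exact (𝔓.valuation_lt_one_iff_mem (K := L) ((p : ℤ) : O)).2 hov
  have hone : ∀ z : ℤ, ¬ (p : ℤ) ∣ z → 𝔓.valuation L (z : L) = 1 := by
    intro z hz
    refine le_antisymm (hint z) ?_
    by_contra hlt
    push Not at hlt
    have hco : IsCoprime (p : ℤ) z :=
      ((Nat.prime_iff_prime_int.1 hp).irreducible.coprime_iff_not_dvd).2 hz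
    obtain ⟨u, v, huv⟩ := hco
    have e : ((u : L) * ((p : ℤ) : L) + (v : L) * (z : L)) = 1 := by
      exact_mod_cast congrArg (Int.cast : ℤ → L) huv
    have h1 : 𝔓.valuation L ((u : L) * ((p : ℤ) : L) + (v : L) * (z : L)) < 1 := by
      refine Valuation.map_add_lt _ ?_ ?_
      · rw [map_mul]
        exact mul_lt_one_of_nonneg_of_lt_one_right (hint u) zero_le hp'
      · rw [map_mul]
        exact mul_lt_one_of_nonneg_of_lt_one_right (hint v) zero_le hlt
    rw [e, map_one] at h1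
    exact lt_irrefl _ h1
  have hcast : ∀ z : ℤ, algebraMap ℚ L (z : ℚ) = (z : L) := fun z => by
    rw [map_intCast]
  have key : ∀ x : ℚ, (W p hp).valuation ℚ x ≤ 1 → ∃ n d : ℤ, ¬ (p : ℤ) ∣ d ∧
      x * (d : ℚ) = (n : ℚ) := by
    intro x hx
    obtain ⟨n, d, h⟩ := (W p hp).exists_primeCompl_mul_eq_of_integer x hx
    refine ⟨n, d, fun hd => d.2 ((W_mem p hp d).2 hd), ?_⟩
    exact h
  constructor
  · intro x hx
    obtain ⟨n, d, hd, h⟩ := key x hx
    have h2 := congrArg (𝔓.valuation L) (congrArg (algebraMap ℚ L) h)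
    rw [map_mul, hcast, hcast, map_mul, hone d hd, mul_one] at h2
    rw [h2]
    exact hint n
  · intro x hx
    obtain ⟨n, d, hd, h⟩ := key x hx.le
    have h2 := congrArg (𝔓.valuation L) (congrArg (algebraMap ℚ L) h)
    rw [map_mul, hcast, hcast, map_mul, hone d hd, mul_one] at h2
    rw [h2]
    have h3 := congrArg ((W p hp).valuation ℚ) h
    rw [map_mul, W_one p hp hd, mul_one] at h3
    have hn : (p : ℤ) ∣ n := by
      by_contra hn
      rw [h3, W_one p hp hn] at hx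
      exact lt_irrefl _ hx
    obtain ⟨m, rfl⟩ := hn
    rw [Int.cast_mul, map_mul]
    calc 𝔓.valuation L ((p : ℤ) : L) * 𝔓.valuation L (m : L) ≤
        𝔓.valuation L ((p : ℤ) : L) * 1 := mul_le_mul_right (hint m) _
      _ < 1 := by rw [mul_one]; exact hp'

end

/-- transport of the local condition -/
theorem ploc {F K : Type} [Field F] [Field K] [Algebra ℚ F] [Algebra ℚ K] (e : F →+* K)
    (he : ∀ x : ℚ, e (algebraMap ℚ F x) = algebraMap ℚ K x) (A B : ℤ) (h : ℚ[X])
    (hl : PL F A B (h.map (algebraMap ℚ F))) : PLoc K (A : ℚ) (B : ℚ) h := by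
  have e1 : e.comp (algebraMap ℚ F) = algebraMap ℚ K := RingHom.ext he
  have e2 : X ^ 3 + C (algebraMap ℚ K (A : ℚ)) * X + C (algebraMap ℚ K (B : ℚ)) = ff K A B := by
    unfold ff
    rw [map_intCast (algebraMap ℚ K) A, map_intCast (algebraMap ℚ K) B]
  unfold PLoc
  rw [e2]
  rcases hl with ⟨g, hg⟩ | ⟨x, y, hy, hxy, g, hg⟩
  · left
    refine ⟨g.map e, ?_⟩
    have := Polynomial.map_dvd e hg
    rw [ff_map, Polynomial.map_sub, Polynomial.map_pow, Polynomial.map_map, e1] at this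
    exact this
  · right
    refine ⟨e x, e y, fun h0 => hy ((map_eq_zero e).1 h0), ?_, g.map e, ?_⟩
    · rw [← map_pow, hxy, map_intCast, map_intCast]
      simp only [map_add, map_mul, map_pow, map_intCast]
    · have := Polynomial.map_dvd e hg
      rw [ff_map, Polynomial.map_sub, Polynomial.map_pow, Polynomial.map_mul, Polynomial.map_sub,
        Polynomial.map_C, Polynomial.map_X, Polynomial.map_map, e1] at this
      exact this

theorem evp : Pool.Agent.H458.AR.S_EVP := by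
  intro L O _ _ _ _ _ _ _ a b D θ hθ p hpf hp2 hp3 hD hdsc α hα hLC 𝔓 hov
  have hp : p.Prime := hpf.out
  have hD0 : D ≠ 0 := by
    rintro rfl
    exact hD (dvd_zero _)
  -- the polynomial
  obtain ⟨r, s, t, hrst⟩ := hθ.gen α
  obtain ⟨h, hh⟩ : ∃ h : ℚ[X], aeval ((D : L) * θ) h = α := by
    refine ⟨C r + C (s / D) * X + C (t / D ^ 2) * X ^ 2, ?_⟩
    have hDL : (D : L) ≠ 0 := by exact_mod_cast hD0
    simp only [map_add, map_mul, map_pow, aeval_C, aeval_X]
    rw [hrst]
    have e1 : ∀ q : ℚ, algebraMap ℚ L q = (q : L) := fun q => by simp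
    rw [e1, e1, e1]
    push_cast
    field_simp
  have hPL := hLC h hh
  -- the isomorphism
  let E : ℚ_[p] ≃ₐ[ℚ] (W p hp).adicCompletion ℚ :=
    (Padic.adicCompletionEquiv ℤ ⟨p, hp⟩).toAlgEquiv
  let e : ℚ_[p] →+* (W p hp).adicCompletion ℚ := E.toRingEquiv.toRingHom
  have he : ∀ x : ℚ, e (algebraMap ℚ ℚ_[p] x) = algebraMap ℚ ((W p hp).adicCompletion ℚ) x :=
    fun x => E.commutes x
  have hPloc := ploc e he _ _ h hPL
  have hcast : ∀ z : ℤ, algebraMap ℚ L (z : ℚ) = (z : L) := fun z => by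
    rw [map_intCast]
  have h6 : ¬ (p : ℤ) ∣ 6 := by
    intro h
    have h' : p ∣ 6 := by exact_mod_cast h
    have : p ∣ 2 * 3 := h'
    rcases (Nat.Prime.dvd_mul hp).1 this with h2 | h3
    · exact hp2 ((Nat.prime_dvd_prime_iff_eq hp Nat.prime_two).1 h2)
    · exact hp3 ((Nat.prime_dvd_prime_iff_eq hp Nat.prime_three).1 h3)
  have key := Pool.Agent.N75.PM.loc1m ℚ L ℤ O (W p hp) 𝔓 (lies p hp 𝔓 hov) (a : ℚ) (b : ℚ)
    (D : ℚ) θ h (by rw [hcast, hcast]; exact hθ.root)
    (by have := W_one p hp h6; exact_mod_cast this) (W_le p hp a) (W_le p hp b)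
    (W_one p hp hD) (by have := W_exp p hp hdsc; unfold dsc at this; exact_mod_cast this)
    (by have := hPloc; push_cast at this; exact this)
  rw [hcast, hh] at key
  exact key hα

end Pool.Agent.H404.AR458
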